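import Pool.Agent.Q45.TD.Nsq
import Pool.Agent.Y160.T3.IrrCount

/-!
# The polynomial, the points and the values
-/

set_option autoImplicit false
set_option linter.all false

open Polynomial
open scoped Classical

namespace Pool.Agent.Q45.TD

open Pool.Agent.Y160.T3 (mF bF mF_eq mF_inj mF_monic mF_natDegree mF_of)

/-- The indices: of the coefficients, the points and the constants. -/
abbrev Ix (n r m : ℕ) : Type := Fin n ⊕ (Fin r ⊕ Fin m)

section defs

variable {A : Type} [CommRing A] {n r m : ℕ}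

/-- The polynomial. -/
noncomputable def gK (v : Ix n r m → A) : A[X] := mF fun i => v (Sum.inl i)

/-- The polynomials with values `c i`. -/
noncomputable def pK (v : Ix n r m → A) (i : Fin r ⊕ Fin m) : A[X] :=
  Sum.elim (fun _ => gK v) (fun _ => X) i

/-- The values `c i`. -/
noncomputable def cc (v : Ix n r m → A) (i : Fin r ⊕ Fin m) : A := eval (v (Sum.inr i)) (pK v i)

/-- The product which shall not be a square. -/
noncomputable def DD (v : Ix n r m → A) (s : Fin r ⊕ Fin m) (U I : Finset (Fin r ⊕ Fin m)) : A :=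
  (∏ i ∈ U, (v (Sum.inr i) - v (Sum.inr s))) * ∏ i ∈ I, (cc v i - cc v s)

theorem cc_inr (v : Ix n r m → A) (j : Fin m) : cc v (Sum.inr j) = v (Sum.inr (Sum.inr j)) := by
  unfold cc pK
  rw [Sum.elim_inr, eval_X]

theorem cc_inl (v : Ix n r m → A) (i : Fin r) :
    cc v (Sum.inl i) = eval (v (Sum.inr (Sum.inl i))) (gK v) := by
  unfold cc pK
  rw [Sum.elim_inl]

section map

variable {B : Type} [CommRing B] (φ : A →+* B) (v : Ix n r m → A)

theorem gK_map : (gK v).map φ = gK fun i => φ (v i) := by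
  unfold gK
  rw [mF_eq, mF_eq, Polynomial.map_add, Polynomial.map_pow, map_X]
  congr 1
  unfold bF
  rw [Polynomial.map_sum]
  refine Finset.sum_congr rfl fun i _ => ?_
  rw [Polynomial.map_mul, Polynomial.map_pow, map_X, map_C]

theorem pK_map (i : Fin r ⊕ Fin m) : (pK v i).map φ = pK (fun i => φ (v i)) i := by
  unfold pK
  rcases i with i | i
  · rw [Sum.elim_inl, Sum.elim_inl, gK_map]
  · rw [Sum.elim_inr, Sum.elim_inr, map_X]

theorem cc_map (i : Fin r ⊕ Fin m) : φ (cc v i) = cc (fun i => φ (v i)) i := by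
  unfold cc
  rw [← pK_map, eval_map, eval₂_at_apply]

theorem DD_map (s : Fin r ⊕ Fin m) (U I : Finset (Fin r ⊕ Fin m)) :
    φ (DD v s U I) = DD (fun i => φ (v i)) s U I := by
  unfold DD
  rw [map_mul, map_prod, map_prod]
  congr 1
  · exact Finset.prod_congr rfl fun i _ => map_sub _ _ _
  · refine Finset.prod_congr rfl fun i _ => ?_
    rw [map_sub, cc_map, cc_map]

end map

theorem gK_monic [Nontrivial A] (v : Ix n r m → A) : (gK v).Monic := mF_monic _

theorem gK_deg [Nontrivial A] (v : Ix n r m → A) : (gK v).natDegree = n := mF_natDegree _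

theorem pK_deg [Nontrivial A] (hn : 0 < n) (v : Ix n r m → A) (i : Fin r ⊕ Fin m) :
    0 < (pK v i).natDegree ∧ (pK v i).natDegree ≤ n := by
  unfold pK
  rcases i with i | i
  · rw [Sum.elim_inl, gK_deg]
    exact ⟨hn, le_rfl⟩
  · rw [Sum.elim_inr, natDegree_X]
    exact ⟨one_pos, hn⟩

section upd

variable (v : Ix n r m → A) (i s : Fin r ⊕ Fin m) (z : A)

theorem gK_upd : gK (Function.update v (Sum.inr i) z) = gK v := by
  unfold gK
  congr 1

theorem pK_upd : pK (Function.update v (Sum.inr i) z) s = pK v s := by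
  unfold pK
  rw [gK_upd]

theorem cc_upd_ne (h : s ≠ i) : cc (Function.update v (Sum.inr i) z) s = cc v s := by
  unfold cc
  rw [pK_upd, Function.update_of_ne (fun h1 => h (Sum.inr_injective h1))]

theorem cc_upd : cc (Function.update v (Sum.inr i) z) i = eval z (pK v i) := by
  unfold cc
  rw [pK_upd, Function.update_self]

theorem v_upd_ne (h : s ≠ i) : Function.update v (Sum.inr i) z (Sum.inr s) = v (Sum.inr s) :=
  Function.update_of_ne (fun h1 => h (Sum.inr_injective h1)) _ _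

theorem v_upd : Function.update v (Sum.inr i) z (Sum.inr i) = z := Function.update_self _ _ _

/-- The product for the other indices does not change. -/
theorem DD_upd_ne {U I : Finset (Fin r ⊕ Fin m)} (hs : s ≠ i) (hU : i ∉ U) (hI : i ∉ I) :
    DD (Function.update v (Sum.inr i) z) s U I = DD v s U I := by
  unfold DD
  congr 1
  · refine Finset.prod_congr rfl fun j hj => ?_
    rw [v_upd_ne v i j z (fun h => hU (h ▸ hj)), v_upd_ne v i s z hs]
  · refine Finset.prod_congr rfl fun j hj => ?_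
    rw [cc_upd_ne v i j z (fun h => hI (h ▸ hj)), cc_upd_ne v i s z hs]

end upd

/-- One index. -/
theorem DD_erase (v : Ix n r m → A) (s i : Fin r ⊕ Fin m) (U I : Finset (Fin r ⊕ Fin m)) :
    DD v s U I = (if i ∈ U then v (Sum.inr i) - v (Sum.inr s) else 1) *
      (if i ∈ I then cc v i - cc v s else 1) * DD v s (U.erase i) (I.erase i) := by
  unfold DD
  have h1 : ∏ j ∈ U, (v (Sum.inr j) - v (Sum.inr s)) =
      (if i ∈ U then v (Sum.inr i) - v (Sum.inr s) else 1) *
        ∏ j ∈ U.erase i, (v (Sum.inr j) - v (Sum.inr s)) := by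
    split_ifs with h
    · exact (Finset.mul_prod_erase U _ h).symm
    · rw [Finset.erase_eq_of_notMem h, one_mul]
  have h3 : ∏ j ∈ I, (cc v j - cc v s) = (if i ∈ I then cc v i - cc v s else 1) *
      ∏ j ∈ I.erase i, (cc v j - cc v s) := by
    split_ifs with h
    · exact (Finset.mul_prod_erase I _ h).symm
    · rw [Finset.erase_eq_of_notMem h, one_mul]
  rw [h1, h3]
  ring

end defs

section fin

variable {F : Type} [Field F] [Fintype F] {n r m : ℕ}

/-- For half of the vectors the differences are not zero. -/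
theorem half_ne (hn : 0 < n) (s : Fin r ⊕ Fin m) (hq : 2 * ((r + m + (r + m)) * n) ≤ Fintype.card F) :
    Fintype.card F ^ Fintype.card (Ix n r m) ≤ 2 * nn (fun v : Ix n r m → F =>
      ∀ i, i ≠ s → v (Sum.inr i) ≠ v (Sum.inr s) ∧ cc v i ≠ cc v s) := by
  have h1 := count_half (F := F) (κ := Ix n r m) (J := (Fin r ⊕ Fin m) ⊕ (Fin r ⊕ Fin m))
    (Sum.elim (fun i => Sum.inr i) (fun i => Sum.inr i)) (b := n)
    (B := Sum.elim (fun i v => i ≠ s ∧ v (Sum.inr i) = v (Sum.inr s))
      (fun i v => i ≠ s ∧ cc v i = cc v s)) (fun j v => ?_) ?_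
  · refine h1.trans (Nat.mul_le_mul le_rfl (nn_mono fun v hv i hi => ⟨fun h => ?_, fun h => ?_⟩))
    · exact hv (Sum.inl i) ⟨hi, h⟩
    · exact hv (Sum.inr i) ⟨hi, h⟩
  · rcases j with i | i
    · rw [Sum.elim_inl, Sum.elim_inl]
      refine le_trans (nn_mono (q := fun z => z = v (Sum.inr s)) fun z hz => ?_)
        ((nn_one _).trans hn)
      rw [v_upd, v_upd_ne v i s z (Ne.symm hz.1)] at hz
      exact hz.2
    · rw [Sum.elim_inr, Sum.elim_inr]
      refine le_trans (nn_mono (q := fun z => eval z (pK v i) = cc v s) fun z hz => ?_)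
        (nn_val (pK_deg hn v i).1 (pK_deg hn v i).2 _)
      rw [cc_upd, cc_upd_ne v i s z (Ne.symm hz.1)] at hz
      exact hz.2
  · simpa using hq

theorem DD_ne {v : Ix n r m → F} {s : Fin r ⊕ Fin m} {U I : Finset (Fin r ⊕ Fin m)} (hU : s ∉ U)
    (hI : s ∉ I) (hv : ∀ i, i ≠ s → v (Sum.inr i) ≠ v (Sum.inr s) ∧ cc v i ≠ cc v s) :
    DD v s U I ≠ 0 := by
  unfold DD
  refine mul_ne_zero (Finset.prod_ne_zero_iff.2 fun i hi => ?_)
    (Finset.prod_ne_zero_iff.2 fun i hi => ?_)
  · exact sub_ne_zero.2 (hv i fun h => hU (h ▸ hi)).1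
  · exact sub_ne_zero.2 (hv i fun h => hI (h ▸ hi)).2

/-- The linear case. -/
theorem cnt_lin (h2 : (2 : F) ≠ 0) (hn : 0 < n) {s i₀ : Fin r ⊕ Fin m}
    {U I : Finset (Fin r ⊕ Fin m)} (hU : s ∉ U) (hI : s ∉ I)
    (h0 : ∀ v : Ix n r m → F, ∃ h, ∀ z, DD (Function.update v (Sum.inr i₀) z) s U I =
      (z - h) * DD v s (U.erase i₀) (I.erase i₀))
    (hq : 2 * ((r + m + (r + m)) * n) ≤ Fintype.card F) :
    Fintype.card F ^ Fintype.card (Ix n r m) ≤ 32 * nn (fun v : Ix n r m → F =>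
      ¬ IsSquare (DD v s U I)) := by
  have h1 := half_ne (n := n) hn s hq
  have h3 := count_A (F := F) (Sum.inr i₀ : Ix n r m) (c := 4) (S := fun v : Ix n r m → F =>
      ∀ i, i ≠ s → v (Sum.inr i) ≠ v (Sum.inr s) ∧ cc v i ≠ cc v s)
      (T := fun v => ¬ IsSquare (DD v s U I)) fun v hv => by
    obtain ⟨h, hh⟩ := h0 v
    have h5 : DD v s (U.erase i₀) (I.erase i₀) ≠ 0 :=
      DD_ne (fun h => hU (Finset.mem_of_mem_erase h)) (fun h => hI (Finset.mem_of_mem_erase h)) hv
    have h6 := nsq_lin h2 h h5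
    have h7 : nn (fun z : F => ¬ IsSquare ((z - h) * DD v s (U.erase i₀) (I.erase i₀))) =
        nn (fun z : F => ¬ IsSquare (DD (Function.update v (Sum.inr i₀) z) s U I)) := by
      congr 1
      funext z
      rw [hh]
    rw [h7] at h6
    have h8 : 1 < Fintype.card F := Fintype.one_lt_card
    omega
  refine h1.trans ((Nat.mul_le_mul le_rfl h3).trans ?_)
  rw [← mul_assoc]
  exact Nat.mul_le_mul (by norm_num) le_rfl

/-- The case of a constant. -/
theorem cnt_const (h2 : (2 : F) ≠ 0) (hn : 0 < n) {s : Fin r ⊕ Fin m} {j : Fin m}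
    {U I : Finset (Fin r ⊕ Fin m)} (hU : s ∉ U) (hI : s ∉ I) (hj : Sum.inr j ∈ I)
    (hUj : Sum.inr j ∉ U) (hq : 2 * ((r + m + (r + m)) * n) ≤ Fintype.card F) :
    Fintype.card F ^ Fintype.card (Ix n r m) ≤ 32 * nn (fun v : Ix n r m → F =>
      ¬ IsSquare (DD v s U I)) := by
  refine cnt_lin h2 hn (i₀ := Sum.inr j) hU hI (fun v => ⟨cc v s, fun z => ?_⟩) hq
  have hs : s ≠ Sum.inr j := fun h => hI (h ▸ hj)
  rw [DD_erase _ s (Sum.inr j), if_neg hUj, if_pos hj, DD_upd_ne v _ s z hs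
    (Finset.notMem_erase _ _) (Finset.notMem_erase _ _), cc_upd, cc_upd_ne v _ s z hs, one_mul]
  unfold pK
  rw [Sum.elim_inr, eval_X]

/-- The case of points. -/
theorem cnt_pts (h2 : (2 : F) ≠ 0) (hn : 0 < n) {s i : Fin r ⊕ Fin m}
    {U : Finset (Fin r ⊕ Fin m)} (hU : s ∉ U) (hi : i ∈ U)
    (hq : 2 * ((r + m + (r + m)) * n) ≤ Fintype.card F) :
    Fintype.card F ^ Fintype.card (Ix n r m) ≤ 32 * nn (fun v : Ix n r m → F =>
      ¬ IsSquare (DD v s U ∅)) := by
  refine cnt_lin h2 hn (i₀ := i) hU (Finset.notMem_empty _) (fun v => ⟨v (Sum.inr s), fun z => ?_⟩) hq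
  have hs : s ≠ i := fun h => hU (h ▸ hi)
  rw [DD_erase _ s i, if_pos hi, if_neg (Finset.notMem_empty _), DD_upd_ne v _ s z hs
    (Finset.notMem_erase _ _) (Finset.notMem_erase _ _), v_upd, v_upd_ne v _ s z hs, mul_one]

end fin

end Pool.Agent.Q45.TD
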