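import Pool.Agent.Q45.TD.Wc

/-!
# Counting irreducible polynomials
-/

set_option autoImplicit false
set_option linter.all false

open Polynomial
open scoped Classical

namespace Pool.Agent.Q45.TD

open Pool.Agent.Y160.T3 (mF bF mF_eq mF_inj mF_monic mF_natDegree mF_of irr_count GoodP)

section dd

variable {A : Type} [CommRing A]

/-- The divided difference. -/
noncomputable def dd (f : A[X]) (x : A) : A[X] := f /ₘ (X - C x)

theorem dd_spec (f : A[X]) (x : A) : f - C (eval x f) = (X - C x) * dd f x := by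
  unfold dd
  rw [← modByMonic_X_sub_C_eq_C_eval]
  have h1 := modByMonic_add_div f (X - C x)
  linear_combination -h1

theorem dd_map {B : Type} [CommRing B] (φ : A →+* B) (f : A[X]) (x : A) :
    (dd f x).map φ = dd (f.map φ) (φ x) := by
  unfold dd
  rw [map_divByMonic φ (monic_X_sub_C x), Polynomial.map_sub, map_X, map_C]

theorem dd_monic [Nontrivial A] {f : A[X]} (hf : f.Monic) (hn : 0 < f.natDegree) (x : A) :
    (dd f x).Monic := by
  have h1 : (f - C (eval x f)).Monic := by
    refine hf.sub_of_left (lt_of_le_of_lt degree_C_le ?_)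
    rw [degree_eq_natDegree hf.ne_zero]
    exact_mod_cast hn
  rw [dd_spec] at h1
  exact (monic_X_sub_C x).of_mul_monic_left h1

theorem dd_deg [Nontrivial A] {f : A[X]} (hf : f.Monic) (hn : 0 < f.natDegree) (x : A) :
    (dd f x).natDegree + 1 = f.natDegree := by
  have h1 := congrArg natDegree (dd_spec f x)
  rw [natDegree_sub_C, (monic_X_sub_C x).natDegree_mul (dd_monic hf hn x), natDegree_X_sub_C] at h1
  omega

theorem dd_of [Nontrivial A] [IsDomain A] {f q : A[X]} {x e : A} (h : f = (X - C x) * q + C e) :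
    dd f x = q := by
  have h1 := dd_spec f x
  have h3 : eval x f = e := by
    rw [h, eval_add, eval_mul, eval_sub, eval_X, eval_C, eval_C, sub_self, zero_mul, zero_add]
  rw [h3] at h1
  have h4 : (X - C x) * dd f x = (X - C x) * q := by
    rw [← h1, h]
    ring
  exact mul_left_cancel₀ (X_sub_C_ne_zero x) h4

theorem dd_lin [Nontrivial A] [IsDomain A] (x e : A) (q : A[X]) :
    dd ((X - C x) * q + C e) x = q := dd_of (e := e) rfl

end dd

section fin

variable {F : Type} [Field F] [Fintype F]

theorem fib {n r m K : ℕ} (T : (Ix n r m → F) → Prop)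
    (h : ∀ w : Fin r ⊕ Fin m → F, Fintype.card F ^ n ≤ K * nn fun a : Fin n → F =>
      T (Sum.elim a w)) : Fintype.card F ^ Fintype.card (Ix n r m) ≤ K * nn T := by
  have h1 : nn T = ∑ w : Fin r ⊕ Fin m → F, nn fun a : Fin n → F => T (Sum.elim a w) := by
    unfold nn
    rw [Finset.sum_comm, ← Fintype.sum_prod_type' (f := fun (a : Fin n → F)
      (w : Fin r ⊕ Fin m → F) => if T (Sum.elim a w) then 1 else 0)]
    refine Fintype.sum_equiv (Equiv.sumArrowEquivProdArrow _ _ _) _ _ fun v => ?_
    have h3 : Sum.elim (Equiv.sumArrowEquivProdArrow (Fin n) (Fin r ⊕ Fin m) F v).1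
        (Equiv.sumArrowEquivProdArrow (Fin n) (Fin r ⊕ Fin m) F v).2 = v := by
      funext i
      rcases i with i | i <;> rfl
    rw [h3]
  rw [h1, Finset.mul_sum]
  calc Fintype.card F ^ Fintype.card (Ix n r m) =
      ∑ w : Fin r ⊕ Fin m → F, Fintype.card F ^ n := by
        rw [Finset.sum_const, Finset.card_univ, Fintype.card_fun, smul_eq_mul, ← pow_add,
          Fintype.card_sum, Fintype.card_fin, add_comm]
    _ ≤ _ := Finset.sum_le_sum fun w _ => h w

theorem nn_irr {n : ℕ} (hn : 0 < n) (hq : 2 * n + 2 ≤ Fintype.card F) :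
    Fintype.card F ^ n ≤ 2 * n * nn fun a : Fin n → F => Irreducible (mF a) := by
  have h := irr_count (m := n) (R := 1) hn odd_one F (one_dvd _) (by rwa [one_mul])
  rw [one_mul] at h
  refine h.trans (Nat.mul_le_mul le_rfl ?_)
  rw [nn_eq]
  refine Finset.card_le_card fun a ha => ?_
  exact Finset.mem_filter.2 ⟨Finset.mem_univ _, (Finset.mem_filter.1 ha).2.1⟩

theorem mF_shift {n : ℕ} (hn : 0 < n) (a : Fin n → F) (c : F) :
    mF (fun i : Fin n => (mF a + C c).coeff i) = mF a + C c := by
  have h1 : (mF a).natDegree = n := mF_natDegree a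
  refine mF_of ((mF_monic a).add_of_left ?_) ?_
  · refine lt_of_le_of_lt degree_C_le ?_
    rw [degree_eq_natDegree (mF_monic a).ne_zero, h1]
    exact_mod_cast hn
  · rw [natDegree_add_C, h1]

/-- The shifted polynomial. -/
theorem nn_shift {n : ℕ} (hn : 0 < n) (hq : 2 * n + 2 ≤ Fintype.card F) (c : F) :
    Fintype.card F ^ n ≤ 2 * n * nn fun a : Fin n → F => Irreducible (mF a - C c) := by
  refine (nn_irr hn hq).trans (Nat.mul_le_mul le_rfl ?_)
  refine nn_inj (fun a i => (mF a + C c).coeff i) (fun a b _ _ hab => ?_) (fun a ha => ?_)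
  · have h1 := congrArg mF hab
    rw [mF_shift hn, mF_shift hn] at h1
    exact mF_inj (add_right_cancel h1)
  · show Irreducible (mF (fun i : Fin n => (mF a + C c).coeff i) - C c)
    rw [mF_shift hn, add_sub_cancel_right]
    exact ha

theorem mF_lin {n : ℕ} (b : Fin n → F) (x e : F) (hn : 0 < n) :
    mF (fun i : Fin (n + 1) => ((X - C x) * mF b + C e).coeff i) = (X - C x) * mF b + C e := by
  have h3 : ((X - C x) * mF b).Monic := (monic_X_sub_C x).mul (mF_monic b)
  have h1 : ((X - C x) * mF b).natDegree = n + 1 := by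
    rw [(monic_X_sub_C x).natDegree_mul (mF_monic b), natDegree_X_sub_C, mF_natDegree, add_comm]
  refine mF_of (h3.add_of_left ?_) ?_
  · refine lt_of_le_of_lt degree_C_le ?_
    rw [degree_eq_natDegree h3.ne_zero, h1]
    exact_mod_cast Nat.succ_pos n
  · rw [natDegree_add_C, h1]

/-- The divided difference. -/
theorem nn_dd {n K : ℕ} (hn : 0 < n) (x : F) {S : (Fin n → F) → Prop}
    (hS : Fintype.card F ^ n ≤ K * nn S) : Fintype.card F ^ (n + 1) ≤
      K * nn fun a : Fin (n + 1) → F => ∃ b, S b ∧ dd (mF a) x = mF b := by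
  have h1 : nn (fun p : (Fin n → F) × F => S p.1) = nn S * Fintype.card F := by
    unfold nn
    rw [Fintype.sum_prod_type, Finset.sum_mul]
    refine Finset.sum_congr rfl fun b _ => ?_
    show ∑ _ : F, (if S b then 1 else 0) = _
    rw [Finset.sum_const, Finset.card_univ, smul_eq_mul, mul_comm]
  have h3 : nn (fun p : (Fin n → F) × F => S p.1) ≤
      nn fun a : Fin (n + 1) → F => ∃ b, S b ∧ dd (mF a) x = mF b := by
    have key : ∀ (b : Fin n → F) (e : F),
        dd (mF (fun i : Fin (n + 1) => ((X - C x) * mF b + C e).coeff i)) x = mF b := by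
      intro b e
      rw [mF_lin b x e hn]
      exact dd_lin x e _
    refine nn_inj (fun p i => ((X - C x) * mF p.1 + C p.2).coeff i) ?_ ?_
    · rintro ⟨b, e⟩ ⟨b', e'⟩ _ _ hp
      have h4 : mF (fun i : Fin (n + 1) => ((X - C x) * mF b + C e).coeff i) =
        mF (fun i : Fin (n + 1) => ((X - C x) * mF b' + C e').coeff i) := congrArg mF hp
      rw [mF_lin b x e hn, mF_lin b' x e' hn] at h4
      have h5 : mF b = mF b' := by
        rw [← dd_lin x e (mF b), h4, dd_lin]
      rw [h5] at h4
      have h6 : e = e' := C_injective (add_left_cancel h4)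
      rw [mF_inj h5, h6]
    · rintro ⟨b, e⟩ hb
      exact ⟨b, hb, key b e⟩
  calc Fintype.card F ^ (n + 1) = Fintype.card F ^ n * Fintype.card F := pow_succ _ _
    _ ≤ K * nn S * Fintype.card F := Nat.mul_le_mul hS le_rfl
    _ = K * nn (fun p : (Fin n → F) × F => S p.1) := by rw [h1]; ring
    _ ≤ _ := Nat.mul_le_mul le_rfl h3

/-- The product of a linear polynomial and an irreducible polynomial. -/
def LinIrr {F : Type} [Field F] (f : F[X]) : Prop :=
  ∃ (α : F) (V : F[X]), Irreducible V ∧ V.Monic ∧ f = (X - C α) * V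

theorem nn_lin {n : ℕ} (hn : 1 < n) (hq : 2 * n + 2 ≤ Fintype.card F) :
    Fintype.card F ^ (n + 1) ≤ 2 * n * nn fun b : Fin (n + 1) → F => LinIrr (mF b) := by
  have h0 := nn_irr (F := F) (n := n) (by omega) hq
  have h1 : nn (fun p : (Fin n → F) × F => Irreducible (mF p.1)) =
      nn (fun a : Fin n → F => Irreducible (mF a)) * Fintype.card F := by
    unfold nn
    rw [Fintype.sum_prod_type, Finset.sum_mul]
    refine Finset.sum_congr rfl fun b _ => ?_
    show ∑ _ : F, (if Irreducible (mF b) then 1 else 0) = _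
    rw [Finset.sum_const, Finset.card_univ, smul_eq_mul, mul_comm]
  have h3 : nn (fun p : (Fin n → F) × F => Irreducible (mF p.1)) ≤
      nn fun b : Fin (n + 1) → F => LinIrr (mF b) := by
    have e : ∀ (b : Fin n → F) (α : F), mF (fun i : Fin (n + 1) =>
        ((X - C α) * mF b + C 0).coeff i) = (X - C α) * mF b := by
      intro b α
      rw [mF_lin b α 0 (by omega), C_0, add_zero]
    refine nn_inj (fun p i => ((X - C p.2) * mF p.1 + C 0).coeff i) ?_ ?_
    · rintro ⟨b, α⟩ ⟨b', α'⟩ hb hb' h
      have hb1 : Irreducible (mF b') := hb'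
      have h4 : mF (fun i : Fin (n + 1) => ((X - C α) * mF b + C 0).coeff i) =
        mF (fun i : Fin (n + 1) => ((X - C α') * mF b' + C 0).coeff i) := congrArg mF h
      rw [e, e] at h4
      have h5 : α = α' := by
        by_contra hne
        have h6 : eval α (mF b') = 0 := by
          have h7 := congrArg (eval α) h4
          rw [eval_mul, eval_sub, eval_X, eval_C, sub_self, zero_mul, eval_mul, eval_sub, eval_X,
            eval_C] at h7
          exact (mul_eq_zero.1 h7.symm).resolve_left (sub_ne_zero.2 hne)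
        have h8 := degree_eq_one_of_irreducible_of_root hb1 h6
        rw [degree_eq_natDegree (mF_monic _).ne_zero, mF_natDegree] at h8
        have h9 : n = 1 := by exact_mod_cast h8
        omega
      rw [h5] at h4
      have h6 : b = b' := mF_inj (mul_left_cancel₀ (X_sub_C_ne_zero α') h4)
      rw [h5, h6]
    · rintro ⟨b, α⟩ hb
      exact ⟨α, mF b, hb, mF_monic b, e b α⟩
  calc Fintype.card F ^ (n + 1) = Fintype.card F ^ n * Fintype.card F := pow_succ _ _
    _ ≤ 2 * n * nn (fun a : Fin n → F => Irreducible (mF a)) * Fintype.card F :=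
        Nat.mul_le_mul h0 le_rfl
    _ = 2 * n * nn (fun p : (Fin n → F) × F => Irreducible (mF p.1)) := by rw [h1]; ring
    _ ≤ _ := Nat.mul_le_mul le_rfl h3

variable {n r m : ℕ}

/-- The test for a constant. -/
theorem cnt_E (hn : 0 < n) (hq : 2 * n + 2 ≤ Fintype.card F) (j : Fin m) :
    Fintype.card F ^ Fintype.card (Ix n r m) ≤ 2 * n * nn (fun v : Ix n r m → F =>
      Irreducible (gK v - C (cc v (Sum.inr j)))) := by
  refine fib _ fun w => ?_
  have h1 := nn_shift hn hq (w (Sum.inr j))
  refine h1.trans (Nat.mul_le_mul le_rfl (nn_mono fun a ha => ?_))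
  rw [cc_inr]
  exact ha

/-- The test for the irreducibility of the second factor. -/
theorem cnt_Q (hn : 1 < n) (hq : 2 * n + 2 ≤ Fintype.card F) (s : Fin r) :
    Fintype.card F ^ Fintype.card (Ix n r m) ≤ 2 * n * nn (fun v : Ix n r m → F =>
      Irreducible (dd (gK v) (v (Sum.inr (Sum.inl s))))) := by
  obtain ⟨n', rfl⟩ : ∃ n', n = n' + 1 := ⟨n - 1, by omega⟩
  refine fib _ fun w => ?_
  have h1 := nn_irr (F := F) (n := n') (by omega) (by omega)
  have h3 := nn_dd (by omega) (w (Sum.inl s)) (h1.trans (Nat.mul_le_mul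
    (show 2 * n' ≤ 2 * (n' + 1) by omega) le_rfl))
  refine h3.trans (Nat.mul_le_mul le_rfl (nn_mono fun a ha => ?_))
  obtain ⟨b, hb, h5⟩ := ha
  show Irreducible (dd (mF a) (w (Sum.inl s)))
  rw [h5]
  exact hb

/-- The test for the factors of the second factor. -/
theorem cnt_N (hn : 3 < n) (hq : 2 * n + 2 ≤ Fintype.card F) (s : Fin r) :
    Fintype.card F ^ Fintype.card (Ix n r m) ≤ 2 * n * nn (fun v : Ix n r m → F =>
      LinIrr (dd (gK v) (v (Sum.inr (Sum.inl s))))) := by
  obtain ⟨n', rfl⟩ : ∃ n', n = n' + 1 + 1 := ⟨n - 2, by omega⟩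
  refine fib _ fun w => ?_
  have h1 := nn_lin (F := F) (n := n') (by omega) (by omega)
  have h3 := nn_dd (by omega) (w (Sum.inl s)) (h1.trans (Nat.mul_le_mul
    (show 2 * n' ≤ 2 * (n' + 1 + 1) by omega) le_rfl))
  refine h3.trans (Nat.mul_le_mul le_rfl (nn_mono fun a ha => ?_))
  obtain ⟨b, hb, h5⟩ := ha
  show LinIrr (dd (mF a) (w (Sum.inl s)))
  rw [h5]
  exact hb

end fin

end Pool.Agent.Q45.TD
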