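import Pool.Agent.Q45.TD.Pad
import Pool.Agent.Q45.TW.UFin

/-!
# Density over number fields
-/

set_option autoImplicit false
set_option linter.all false

open Polynomial Filter Topology
open scoped Classical

namespace Pool.Agent.Q45.TD

open Q45.Tate (Zd Bd of_not_bd irr_up)
open Pool.Agent.Y160.T2 (sieve embed_ex)
open Pool.Agent.Q45.TW (Fac StepC GoodL step_pt step_irr Data)

/-- The indices as numbers. -/
def ei (n r m : ℕ) : Ix n r m ≃ Fin (n + (r + m)) :=
  (Equiv.sumCongr (Equiv.refl _) finSumFinEquiv).trans finSumFinEquiv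

/-- The vector with the new indices. -/
def vv {A : Type} {n r m : ℕ} (v : Fin (n + (r + m)) → A) : Ix n r m → A := fun i => v (ei n r m i)

section sieve

variable {n r m : ℕ}

/-- The vectors whose residues fail the test for all primes. -/
def BdI (k : Type) [Field k] (T : ∀ (F : Type) [Field F], (Ix n r m → F) → Prop) :
    Set (Fin (n + (r + m)) → ℤ) := Bd k fun F _ v => T F (vv v)

theorem zdI (k : Type) [Field k] [NumberField k]
    (T : ∀ (F : Type) [Field F], (Ix n r m → F) → Prop)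
    (h : ∃ K₀ N₀ : ℕ, ∀ (F : Type) [Field F] [Fintype F], (2 : F) ≠ 0 → N₀ ≤ Fintype.card F →
      Fintype.card F ^ Fintype.card (Ix n r m) ≤ K₀ * nn fun v : Ix n r m → F => T F v) :
    Zd (BdI k T) := by
  classical
  obtain ⟨K₀, N₀, hK⟩ := h
  refine sieve (D := K₀ + 1) (Nat.succ_pos _) _ fun B => ?_
  obtain ⟨P, hP, hPB, hσ⟩ := embed_ex k (B + N₀ + 2)
  haveI : Fintype (ZMod P) := ZMod.fintype P
  have hcard : Fintype.card (ZMod P) = P := ZMod.card P
  have h2 : (2 : ZMod P) ≠ 0 := by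
    intro h0
    have h1 : ((2 : ℕ) : ZMod P) = 0 := by exact_mod_cast h0
    rw [ZMod.natCast_eq_zero_iff] at h1
    have h3 := Nat.le_of_dvd (by norm_num) h1
    omega
  have h1 := hK (ZMod P) h2 (by rw [hcard]; omega)
  have hc : Fintype.card (Ix n r m) = n + (r + m) := by simp
  rw [hcard, hc] at h1
  have h4 : nn (fun v : Ix n r m → ZMod P => T (ZMod P) v) ≤
      nn (fun v : Fin (n + (r + m)) → ZMod P => T (ZMod P) (vv v)) := by
    refine nn_inj (fun v i => v ((ei n r m).symm i)) (fun v w _ _ hvw => ?_) (fun v hv => ?_)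
    · funext i
      have h5 := congrFun hvw (ei n r m i)
      simpa using h5
    · have h5 : vv (fun i => v ((ei n r m).symm i)) = v := by
        funext i
        show v ((ei n r m).symm (ei n r m i)) = v i
        rw [Equiv.symm_apply_apply]
      show T (ZMod P) (vv (fun i => v ((ei n r m).symm i)))
      rw [h5]
      exact hv
  rw [nn_ncard (X := Fin (n + (r + m)) → ZMod P)] at h4
  set A : Set (Fin (n + (r + m)) → ZMod P) := {v | T (ZMod P) (vv v)} with hA
  have hfin : A.Finite := Set.toFinite _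
  refine ⟨P, by omega, hP.out, hfin.toFinset, ?_, ?_⟩
  · rw [Set.ncard_eq_toFinset_card A hfin] at h4
    exact h1.trans (Nat.mul_le_mul (Nat.le_succ _) h4)
  · intro v hv hmem
    rw [Set.Finite.mem_toFinset] at hmem
    exact hv P hσ hmem

theorem of_not_bdI {k : Type} [Field k] {T : ∀ (F : Type) [Field F], (Ix n r m → F) → Prop}
    {v : Fin (n + (r + m)) → ℤ} (hv : v ∉ BdI k T) : ∃ (P : ℕ) (_ : Fact P.Prime) (_ : k →+* ℚ_[P]),
      T (ZMod P) (fun i => ((vv v i : ℤ) : ZMod P)) := of_not_bd hv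

end sieve

section exc

variable {n r m : ℕ}

/-- The triples for which the product shall not be a square. -/
def Vld (r m : ℕ) (x : (Fin r ⊕ Fin m) × Finset (Fin r ⊕ Fin m) × Finset (Fin r ⊕ Fin m)) : Prop :=
  x.1 ∉ x.2.1 ∧ x.1 ∉ x.2.2 ∧ (∀ i ∈ x.2.1, ∃ j, i = Sum.inl j) ∧
    ((∃ j, Sum.inr j ∈ x.2.2) ∨ (x.2.2 = ∅ ∧ x.2.1 ≠ ∅) ∨
      ∃ s', x.1 = Sum.inl s' ∧ (∀ i ∈ x.2.2, ∃ j, i = Sum.inl j) ∧ ∃ i₀, Sum.inl i₀ ∈ x.2.2)

/-- The exceptions. -/
def Exc (n r m : ℕ) (k : Type) [Field k] : Set (Fin (n + (r + m)) → ℤ) :=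
  (((⋃ j : Fin m, BdI (n := n) (r := r) k fun F _ v => Irreducible (gK v - C (cc v (Sum.inr j)))) ∪
    (⋃ s : Fin r, BdI (n := n) (m := m) k fun F _ v =>
      Irreducible (dd (gK v) (v (Sum.inr (Sum.inl s)))))) ∪
    (⋃ s : Fin r, BdI (n := n) (m := m) k fun F _ v =>
      LinIrr (dd (gK v) (v (Sum.inr (Sum.inl s)))))) ∪
    ⋃ x : {x : (Fin r ⊕ Fin m) × Finset (Fin r ⊕ Fin m) × Finset (Fin r ⊕ Fin m) // Vld r m x},
      BdI (n := n) k fun F _ v => ¬ IsSquare (DD v x.1.1 x.1.2.1 x.1.2.2)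

theorem exc_zd (hn : 3 < n) (k : Type) [Field k] [NumberField k] : Zd (Exc n r m k) := by
  refine Zd.union (Zd.union (Zd.union (Zd.iUnion fun j => ?_) (Zd.iUnion fun s => ?_))
    (Zd.iUnion fun s => ?_)) (Zd.iUnion fun x => ?_)
  · exact zdI k _ ⟨2 * n, 2 * n + 2, fun F _ _ _ hF => cnt_E (by omega) hF j⟩
  · exact zdI k _ ⟨2 * n, 2 * n + 2, fun F _ _ _ hF => cnt_Q (by omega) hF s⟩
  · exact zdI k _ ⟨2 * n, 2 * n + 2, fun F _ _ _ hF => cnt_N hn hF s⟩
  · obtain ⟨⟨s, U, I⟩, hU, hI, hUp, hx⟩ := x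
    refine zdI k _ ⟨32, 2 * ((r + m + (r + m)) * n) + (2 * n + 2) + (6 + 4 * (r + m)),
      fun F _ _ h2 hF => ?_⟩
    rcases hx with ⟨j, hj⟩ | ⟨h1, h3⟩ | ⟨s', h1, h3, i₀, h4⟩
    · exact cnt_const h2 (by omega) hU hI hj (fun h => by
        obtain ⟨j', hj'⟩ := hUp _ h
        exact absurd hj' (by simp)) (by omega)
    · obtain ⟨i, hi⟩ := Finset.nonempty_iff_ne_empty.2 h3
      have h5 : I = ∅ := h1
      subst h5
      exact cnt_pts h2 (by omega) hU hi (by omega)
    · have h5 : s = Sum.inl s' := h1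
      subst h5
      exact cnt_W h2 (by omega) hU hI h3 h4 (by omega) (by omega) (by omega)

variable {k : Type} [Field k] [CharZero k] {v : Fin (n + (r + m)) → ℤ}

/-- The vector with coordinates in `k`. -/
def vk (k : Type) [Field k] (v : Fin (n + (r + m)) → ℤ) : Ix n r m → k := fun i => ((vv v i : ℤ) : k)

theorem not_E (hn : 0 < n) (hv : v ∉ Exc n r m k) (j : Fin m) :
    Irreducible (gK (vk k v) - C (cc (vk k v) (Sum.inr j))) := by
  unfold Exc at hv
  simp only [Set.mem_union, not_or] at hv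
  obtain ⟨P, hP, σ, hT⟩ := of_not_bdI (fun h => hv.1.1.1 (Set.mem_iUnion.2 ⟨j, h⟩))
  have e : ∀ {B : Type} [CommRing B] (φ : ℤ →+* B),
      (gK (vv v) - C (cc (vv v) (Sum.inr j))).map φ =
        gK (fun i => φ (vv v i)) - C (cc (fun i => φ (vv v i)) (Sum.inr j)) := by
    intro B _ φ
    rw [Polynomial.map_sub, map_C, gK_map, cc_map]
  have hm : (gK (vv v) - C (cc (vv v) (Sum.inr j))).Monic := by
    refine (gK_monic _).sub_of_left (lt_of_le_of_lt degree_C_le ?_)
    rw [degree_eq_natDegree (gK_monic _).ne_zero, gK_deg]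
    exact_mod_cast hn
  have h1 := irr_up σ hm (by rw [e]; exact hT)
  rw [e] at h1
  exact h1

theorem not_Q (hn : 0 < n) (hv : v ∉ Exc n r m k) (s : Fin r) :
    Irreducible (dd (gK (vk k v)) (vk k v (Sum.inr (Sum.inl s)))) := by
  unfold Exc at hv
  simp only [Set.mem_union, not_or] at hv
  obtain ⟨P, hP, σ, hT⟩ := of_not_bdI (fun h => hv.1.1.2 (Set.mem_iUnion.2 ⟨s, h⟩))
  have e : ∀ {B : Type} [CommRing B] (φ : ℤ →+* B),
      (dd (gK (vv v)) (vv v (Sum.inr (Sum.inl s)))).map φ =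
        dd (gK (fun i => φ (vv v i))) (φ (vv v (Sum.inr (Sum.inl s)))) := by
    intro B _ φ
    rw [dd_map, gK_map]
  have hm : (dd (gK (vv v)) (vv v (Sum.inr (Sum.inl s)))).Monic :=
    dd_monic (gK_monic _) (by rw [gK_deg]; exact hn) _
  have h1 := irr_up σ hm (by rw [e]; exact hT)
  rw [e] at h1
  exact h1

theorem sq_int {P : ℕ} [Fact P.Prime] {E : Type} [Field E] (σ : E →+* ℚ_[P]) {h : ℤ[X]} (hm : h.Monic)
    {q : E[X]} (hq : h.map (Int.castRingHom E) = q) (hirr : Irreducible q) {t : (ZMod P)[X]}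
    (ht : h.map (Int.castRingHom (ZMod P)) = t) (hh : LinIrr t)
    (hd : 4 ≤ h.natDegree) {d : E} {z : E[X]} (hz : q ∣ C d - z ^ 2) : ∃ e, d = e ^ 2 := by
  subst hq ht
  obtain ⟨a, V, hV, hqV⟩ := hens hm hh (by omega)
  refine sq_down (a := a) σ hirr hV ?_ ?_ hz
  · rw [Polynomial.map_map, ← hqV]
    congr 1
    exact RingHom.ext_int _ _
  · rw [hm.natDegree_map]
    exact hd

theorem dd_map' {B : Type} [CommRing B] (φ : ℤ →+* B) (v : Fin (n + (r + m)) → ℤ) (s : Fin r) :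
    (dd (gK (vv v)) (vv v (Sum.inr (Sum.inl s)))).map φ =
      dd (gK (fun i => φ (vv v i))) (φ (vv v (Sum.inr (Sum.inl s)))) := by
  rw [dd_map, gK_map]

theorem not_N (hn : 4 < n) (hv : v ∉ Exc n r m k) (s : Fin r) {d : k} {z : k[X]}
    (h : dd (gK (vk k v)) (vk k v (Sum.inr (Sum.inl s))) ∣ C d - z ^ 2) : ∃ e, d = e ^ 2 := by
  have hQ := not_Q (by omega) hv s
  unfold Exc at hv
  simp only [Set.mem_union, not_or] at hv
  obtain ⟨P, hP, σ, hT⟩ := of_not_bdI (fun h => hv.1.2 (Set.mem_iUnion.2 ⟨s, h⟩))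
  have hm : (dd (gK (vv v)) (vv v (Sum.inr (Sum.inl s)))).Monic :=
    dd_monic (gK_monic _) (by rw [gK_deg]; omega) _
  have hd : (dd (gK (vv v)) (vv v (Sum.inr (Sum.inl s)))).natDegree + 1 = n := by
    rw [dd_deg (gK_monic _) (by rw [gK_deg]; omega), gK_deg]
  exact sq_int σ hm (dd_map' _ v s) hQ (dd_map' _ v s) hT (by omega) h

theorem not_D (hv : v ∉ Exc n r m k) {s : Fin r ⊕ Fin m} {U I : Finset (Fin r ⊕ Fin m)}
    (hx : Vld r m (s, U, I)) (e : k) : DD (vk k v) s U I ≠ e ^ 2 := by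
  unfold Exc at hv
  simp only [Set.mem_union, not_or] at hv
  obtain ⟨P, hP, σ, hT⟩ := of_not_bdI (fun h => hv.2 (Set.mem_iUnion.2 ⟨⟨_, hx⟩, h⟩))
  have h1 := DD_map (Int.castRingHom (ZMod P)) (vv v) s U I
  have h3 := DD_map (Int.castRingHom k) (vv v) s U I
  have h4 : ¬ IsSquare ((DD (vv v) s U I : ℤ) : ZMod P) := by
    have h5 : ((DD (vv v) s U I : ℤ) : ZMod P) = DD (fun i => ((vv v i : ℤ) : ZMod P)) s U I := h1
    rw [h5]
    exact hT
  have h6 := nonsq_up σ h4 e
  have h7 : ((DD (vv v) s U I : ℤ) : k) = DD (vk k v) s U I := h3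
  rwa [h7] at h6

theorem mem_tf {α : Type} {inst : DecidableEq α} {l : List α} {a : α}
    (h : a ∈ @List.toFinset α inst l) : a ∈ l := (@List.mem_toFinset α inst l a).1 h

/-- No square. -/
theorem not_sq (hv : v ∉ Exc n r m k) {s : Fin r} {U I : Finset (Fin r ⊕ Fin m)}
    (hU : Sum.inl s ∉ U) (hI : Sum.inl s ∉ I) (hUp : ∀ i ∈ U, ∃ j, i = Sum.inl j) {w : k}
    (h : DD (vk k v) (Sum.inl s) U I = w ^ 2) : U = ∅ ∧ I = ∅ := by
  by_contra hcon
  refine not_D hv (s := Sum.inl s) (U := U) (I := I) ⟨hU, hI, hUp, ?_⟩ w h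
  by_cases h1 : ∃ j, Sum.inr j ∈ I
  · exact Or.inl h1
  · refine Or.inr ?_
    have h3 : ∀ i ∈ I, ∃ j, i = Sum.inl j := by
      intro i hi
      rcases i with i | i
      · exact ⟨i, rfl⟩
      · exact absurd ⟨i, hi⟩ h1
    by_cases h4 : I = ∅
    · refine Or.inl ⟨h4, fun h5 => hcon ⟨h5, h4⟩⟩
    · obtain ⟨i, hi⟩ := Finset.nonempty_iff_ne_empty.2 h4
      obtain ⟨j, rfl⟩ := h3 i hi
      exact Or.inr ⟨s, rfl, h3, j, hi⟩

theorem not_sq' (hv : v ∉ Exc n r m k) {s : Fin m} {I : Finset (Fin r ⊕ Fin m)}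
    (hI : Sum.inr s ∉ I) (hIp : ∀ i ∈ I, ∃ j, i = Sum.inr j) {w : k}
    (h : DD (vk k v) (Sum.inr s) ∅ I = w ^ 2) : I = ∅ := by
  by_contra hcon
  refine not_D hv (s := Sum.inr s) (U := ∅) (I := I) ⟨Finset.notMem_empty _, hI,
    fun i hi => absurd hi (Finset.notMem_empty i), Or.inl ?_⟩ w h
  obtain ⟨i, hi⟩ := Finset.nonempty_iff_ne_empty.2 hcon
  obtain ⟨j, rfl⟩ := hIp i hi
  exact ⟨j, hi⟩

/-- The polynomials `q i`. -/
noncomputable def qq (k : Type) [Field k] (v : Fin (n + (r + m)) → ℤ) : Fin r ⊕ Fin m → k[X] :=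
  Sum.elim (fun s => dd (gK (vk k v)) (vk k v (Sum.inr (Sum.inl s))))
    (fun j => gK (vk k v) - C (cc (vk k v) (Sum.inr j)))

theorem fac_all (hn : 0 < n) (hv : v ∉ Exc n r m k) (i : Fin r ⊕ Fin m) :
    Fac (gK (vk k v)) (cc (vk k v)) (fun i => ∃ j, i = Sum.inl j) (fun i => vk k v (Sum.inr i))
      (qq k v) i := by
  rcases i with s | j
  · refine ⟨fun _ => ?_, fun h => absurd ⟨s, rfl⟩ h, not_Q hn hv s⟩
    rw [cc_inl]
    exact dd_spec _ _
  · refine ⟨fun h => ?_, fun _ => rfl, not_E hn hv j⟩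
    obtain ⟨j', hj'⟩ := h
    exact absurd hj' (by simp)

theorem good_extra (hn : 0 < n) (hodd : Odd n) (hv : v ∉ Exc n r m k) :
    ∀ l : List (Fin m), l.Nodup → GoodL (gK (vk k v)) ((l.map Sum.inr).map (cc (vk k v)))
  | [], _ => trivial
  | j :: l, h => by
    have h1 := List.nodup_cons.1 h
    refine ⟨?_, good_extra hn hodd hv l h1.2⟩
    have hnd : (l.map (Sum.inr : Fin m → Fin r ⊕ Fin m)).Nodup := h1.2.map Sum.inr_injective
    have hmem : ∀ i, i ∈ l.map (Sum.inr : Fin m → Fin r ⊕ Fin m) → ∃ j', j' ∈ l ∧ Sum.inr j' = i :=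
      fun i hi => List.mem_map.1 hi
    refine step_irr (gK_monic _) (by rw [gK_deg]; exact hodd) (not_E hn hv j) (fun i hi => ?_)
      ((not_E hn hv j).separable) hnd fun I hI w hw => ?_
    · obtain ⟨j', -, rfl⟩ := hmem i hi
      exact not_E hn hv j'
    · refine not_sq' hv (s := j) (I := I) (fun h => ?_) (fun i hi => ?_) (w := w) ?_
      · obtain ⟨j', h3, h4⟩ := hmem _ (mem_tf (hI h))
        exact h1.1 (Sum.inr_injective h4 ▸ h3)
      · obtain ⟨j', -, h4⟩ := hmem _ (mem_tf (hI hi))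
        exact ⟨j', h4.symm⟩
      · unfold DD
        rw [Finset.prod_empty, one_mul]
        exact hw

theorem good_pts (hn : 4 < n) (hodd : Odd n) (hv : v ∉ Exc n r m k) :
    ∀ l : List (Fin r), l.Nodup → GoodL (gK (vk k v))
      ((l.map Sum.inl ++ (List.finRange m).map Sum.inr).map (cc (vk k v)))
  | [], _ => by
    rw [List.map_nil, List.nil_append]
    exact good_extra (by omega) hodd hv _ (List.nodup_finRange m)
  | s :: l, h => by
    have h1 := List.nodup_cons.1 h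
    rw [List.map_cons, List.cons_append, List.map_cons]
    refine ⟨?_, good_pts hn hodd hv l h1.2⟩
    set L : List (Fin r ⊕ Fin m) := l.map Sum.inl ++ (List.finRange m).map Sum.inr with hL
    have hnd : L.Nodup := by
      refine List.Nodup.append (h1.2.map Sum.inl_injective)
        ((List.nodup_finRange m).map Sum.inr_injective) ?_
      intro i hi hi'
      obtain ⟨j, -, rfl⟩ := List.mem_map.1 hi
      obtain ⟨j', -, hj'⟩ := List.mem_map.1 hi'
      exact absurd hj' (by simp)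
    have hs : Sum.inl s ∉ L := by
      intro hs
      rcases List.mem_append.1 hs with h3 | h3
      · obtain ⟨j, h4, h5⟩ := List.mem_map.1 h3
        exact h1.1 (Sum.inl_injective h5 ▸ h4)
      · obtain ⟨j, h4, h5⟩ := List.mem_map.1 h3
        exact absurd h5 (by simp)
    have hF := fac_all (by omega) hv (Sum.inl s)
    have hne : vk k v (Sum.inr (Sum.inl s)) = vk k v (Sum.inr (Sum.inl s)) := rfl
    have hqd : (dd (gK (vk k v)) (vk k v (Sum.inr (Sum.inl s)))).natDegree + 1 = n := by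
      rw [dd_deg (gK_monic _) (by rw [gK_deg]; omega), gK_deg]
    have hsep : (gK (vk k v) - C (cc (vk k v) (Sum.inl s))).Separable := by
      rw [hF.pt ⟨s, rfl⟩]
      have hq := not_Q (by omega) hv s
      refine (separable_X_sub_C).mul hq.separable ?_
      rw [(irreducible_X_sub_C _).coprime_iff_not_dvd]
      intro hd
      have h3 := (irreducible_X_sub_C _).associated_of_dvd hq hd
      have h4 := natDegree_eq_of_degree_eq (degree_eq_degree_of_associated h3)
      rw [natDegree_X_sub_C] at h4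
      omega
    refine step_pt (P := fun i => ∃ j, i = Sum.inl j) (gK_monic _) (by rw [gK_deg]; exact hodd)
      ⟨s, rfl⟩ hF (fun i _ => fac_all (by omega) hv i) hsep hnd
      (fun U I hU hUp hI w hw => ?_) (fun I hI hI0 w hw => ?_)
    · exact not_sq hv (fun h => hs (mem_tf (hU h)))
        (fun h => hs (mem_tf (hI h))) hUp (w := w) hw
    · obtain ⟨e, he⟩ := not_N hn hv s hw
      have h3 := not_sq hv (s := s) (U := ∅) (I := I) (Finset.notMem_empty _)
        (fun h => hs (mem_tf (hI h)))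
        (fun i hi => absurd hi (Finset.notMem_empty i)) (w := e) (by
          unfold DD
          rw [Finset.prod_empty, one_mul]
          exact he)
      exact hI0 h3.2

/-- All the conditions. -/
theorem dens_data (hn : 4 < n) (hodd : Odd n) (hv : v ∉ Exc n r m k) :
    Data (gK (vk k v)) (cc (vk k v)) (fun i => vk k v (Sum.inr i)) (fun i => ∃ j, i = Sum.inl j)
      (qq k v) ((List.finRange r).map Sum.inl ++ (List.finRange m).map Sum.inr)
      (Sum.inl : Fin r → Fin r ⊕ Fin m) := by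
  refine ⟨two_ne_zero, gK_monic _, by rw [gK_deg]; exact hodd, ?_, fun i => ?_, ?_,
    good_pts hn hodd hv _ (List.nodup_finRange r), fac_all (by omega) hv, fun i hi => ?_,
    Sum.inl_injective, fun j => ⟨j, rfl⟩, fun i hi => ?_⟩
  · intro h0
    have h1 := natDegree_eq_zero_of_derivative_eq_zero h0
    rw [gK_deg] at h1
    omega
  · rcases i with i | i
    · exact List.mem_append.2 (Or.inl (List.mem_map.2 ⟨i, List.mem_finRange i, rfl⟩))
    · exact List.mem_append.2 (Or.inr (List.mem_map.2 ⟨i, List.mem_finRange i, rfl⟩))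
  · refine List.Nodup.append ((List.nodup_finRange r).map Sum.inl_injective)
        ((List.nodup_finRange m).map Sum.inr_injective) ?_
    intro i hi hi'
    obtain ⟨j, -, rfl⟩ := List.mem_map.1 hi
    obtain ⟨j', -, hj'⟩ := List.mem_map.1 hi'
    exact absurd hj' (by simp)
  · obtain ⟨s, rfl⟩ := hi
    have hqd : (dd (gK (vk k v)) (vk k v (Sum.inr (Sum.inl s)))).natDegree + 1 = n := by
      rw [dd_deg (gK_monic _) (by rw [gK_deg]; omega), gK_deg]
    show 1 < (dd (gK (vk k v)) (vk k v (Sum.inr (Sum.inl s)))).natDegree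
    omega
  · obtain ⟨j, rfl⟩ := hi
    exact ⟨j, rfl⟩

end exc

end Pool.Agent.Q45.TD
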