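import Mathlib

/-!
# Counting with one coordinate
-/

set_option autoImplicit false
set_option linter.all false

open Polynomial
open scoped Classical

namespace Pool.Agent.Q45.TD

/-- The number of the elements with a property. -/
noncomputable def nn {X : Type} [Fintype X] (p : X → Prop) : ℕ := ∑ x, if p x then 1 else 0

section basic

variable {X Y : Type} [Fintype X] [Fintype Y] {p q : X → Prop}

theorem nn_eq (p : X → Prop) : nn p = (Finset.univ.filter p).card := by
  unfold nn
  rw [Finset.card_filter]

theorem nn_ncard (p : X → Prop) : nn p = {x | p x}.ncard := by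
  rw [nn_eq, ← Set.ncard_coe_finset]
  congr 1
  ext x
  simp

theorem nn_mono (h : ∀ x, p x → q x) : nn p ≤ nn q := by
  unfold nn
  refine Finset.sum_le_sum fun x _ => ?_
  by_cases h1 : p x
  · rw [if_pos h1, if_pos (h x h1)]
  · rw [if_neg h1]
    exact Nat.zero_le _

theorem nn_or (p q : X → Prop) : nn (fun x => p x ∨ q x) ≤ nn p + nn q := by
  unfold nn
  rw [← Finset.sum_add_distrib]
  refine Finset.sum_le_sum fun x _ => ?_
  by_cases h1 : p x <;> by_cases h3 : q x <;> simp [h1, h3]

theorem nn_not (p : X → Prop) : nn p + nn (fun x => ¬ p x) = Fintype.card X := by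
  unfold nn
  rw [← Finset.sum_add_distrib, ← Finset.card_univ, Finset.card_eq_sum_ones]
  refine Finset.sum_congr rfl fun x _ => ?_
  by_cases h1 : p x <;> simp [h1]

theorem nn_ex {J : Type} [Fintype J] (B : J → X → Prop) :
    nn (fun x => ∃ j, B j x) ≤ ∑ j, nn (B j) := by
  unfold nn
  rw [Finset.sum_comm]
  refine Finset.sum_le_sum fun x _ => ?_
  split_ifs with h
  · obtain ⟨j, hj⟩ := h
    refine le_trans ?_ (Finset.single_le_sum (f := fun j => if B j x then 1 else 0)
      (fun _ _ => Nat.zero_le _) (Finset.mem_univ j))
    rw [if_pos hj]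
  · exact Nat.zero_le _

theorem nn_inj {p : X → Prop} {q : Y → Prop} (f : X → Y) (hf : ∀ x y, p x → p y → f x = f y → x = y)
    (h : ∀ x, p x → q (f x)) : nn p ≤ nn q := by
  rw [nn_eq, nn_eq]
  refine Finset.card_le_card_of_injOn f (fun x hx => ?_) (fun x hx y hy hxy => ?_)
  · exact Finset.mem_coe.2 (Finset.mem_filter.2 ⟨Finset.mem_univ _, h x (Finset.mem_filter.1 hx).2⟩)
  · exact hf x y (Finset.mem_filter.1 hx).2 (Finset.mem_filter.1 hy).2 hxy

theorem nn_prod (p : X × Y → Prop) : nn p = ∑ x, nn fun y => p (x, y) := by
  unfold nn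
  rw [Fintype.sum_prod_type]

theorem nn_le (p : X → Prop) : nn p ≤ Fintype.card X := by
  have := nn_not p
  omega

end basic

section upd

variable {κ F : Type} [Fintype κ] [DecidableEq κ] [Fintype F]

theorem sum_update (i : κ) (f : (κ → F) → ℕ) :
    ∑ v : κ → F, ∑ z : F, f (Function.update v i z) = Fintype.card F * ∑ v, f v := by
  have h1 : ∑ x : (κ → F) × F, f (Function.update x.1 i x.2) = ∑ x : (κ → F) × F, f x.1 := by
    let e : (κ → F) × F ≃ (κ → F) × F :=
      { toFun := fun x => (Function.update x.1 i x.2, x.1 i)
        invFun := fun x => (Function.update x.1 i x.2, x.1 i)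
        left_inv := fun x => by
          simp
        right_inv := fun x => by
          simp }
    exact Fintype.sum_equiv e _ _ fun x => rfl
  rw [Fintype.sum_prod_type, Fintype.sum_prod_type] at h1
  rw [h1, Finset.mul_sum]
  refine Finset.sum_congr rfl fun v _ => ?_
  show ∑ _ : F, f v = _
  rw [Finset.sum_const, Finset.card_univ, smul_eq_mul]

theorem nn_update (i : κ) (p : (κ → F) → Prop) :
    ∑ v : κ → F, nn (fun z : F => p (Function.update v i z)) = Fintype.card F * nn p :=
  sum_update i fun v => if p v then 1 else 0

variable [Nonempty F]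

/-- Many values of one coordinate. -/
theorem count_A (i : κ) {c : ℕ} {S T : (κ → F) → Prop}
    (h : ∀ v, S v → Fintype.card F ≤ c * nn (fun z : F => T (Function.update v i z))) :
    nn S ≤ c * nn T := by
  have h1 : Fintype.card F * nn S ≤ Fintype.card F * (c * nn T) := by
    calc Fintype.card F * nn S = ∑ v : κ → F, if S v then Fintype.card F else 0 := by
          unfold nn
          rw [Finset.mul_sum]
          exact Finset.sum_congr rfl fun v _ => by split_ifs <;> simp
      _ ≤ ∑ v : κ → F, c * nn (fun z : F => T (Function.update v i z)) := by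
          refine Finset.sum_le_sum fun v _ => ?_
          split_ifs with hv
          · exact h v hv
          · exact Nat.zero_le _
      _ = Fintype.card F * (c * nn T) := by
          rw [← Finset.mul_sum, nn_update]
          ring
  exact Nat.le_of_mul_le_mul_left h1 Fintype.card_pos

/-- Few values of one coordinate. -/
theorem count_B (i : κ) {b : ℕ} {B : (κ → F) → Prop}
    (h : ∀ v, nn (fun z : F => B (Function.update v i z)) ≤ b) :
    Fintype.card F * nn B ≤ b * Fintype.card F ^ Fintype.card κ := by
  rw [← nn_update i]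
  calc ∑ v : κ → F, nn (fun z : F => B (Function.update v i z)) ≤ ∑ v : κ → F, b :=
        Finset.sum_le_sum fun v _ => h v
    _ = b * Fintype.card F ^ Fintype.card κ := by
        rw [Finset.sum_const, Finset.card_univ, Fintype.card_fun, smul_eq_mul, mul_comm]

/-- Half of the vectors have none of the properties. -/
theorem count_half {J : Type} [Fintype J] (i : J → κ) {b : ℕ} {B : J → (κ → F) → Prop}
    (h : ∀ j v, nn (fun z : F => B j (Function.update v (i j) z)) ≤ b)
    (hq : 2 * (Fintype.card J * b) ≤ Fintype.card F) :
    Fintype.card F ^ Fintype.card κ ≤ 2 * nn fun v => ∀ j, ¬ B j v := by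
  have h1 : Fintype.card F * nn (fun v => ∃ j, B j v) ≤
      Fintype.card J * b * Fintype.card F ^ Fintype.card κ := by
    calc Fintype.card F * nn (fun v => ∃ j, B j v) ≤ Fintype.card F * ∑ j, nn (B j) :=
          Nat.mul_le_mul le_rfl (nn_ex B)
      _ = ∑ j, Fintype.card F * nn (B j) := Finset.mul_sum _ _ _
      _ ≤ ∑ j : J, b * Fintype.card F ^ Fintype.card κ :=
          Finset.sum_le_sum fun j _ => count_B (i j) (h j)
      _ = _ := by
          rw [Finset.sum_const, Finset.card_univ, smul_eq_mul, mul_assoc]
  have h3 : 2 * nn (fun v => ∃ j, B j v) ≤ Fintype.card F ^ Fintype.card κ := by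
    have h4 : Fintype.card F * (2 * nn (fun v => ∃ j, B j v)) ≤
        Fintype.card F * Fintype.card F ^ Fintype.card κ := by
      calc Fintype.card F * (2 * nn (fun v => ∃ j, B j v)) =
          2 * (Fintype.card F * nn (fun v => ∃ j, B j v)) := by ring
        _ ≤ 2 * (Fintype.card J * b * Fintype.card F ^ Fintype.card κ) :=
          Nat.mul_le_mul le_rfl h1
        _ = 2 * (Fintype.card J * b) * Fintype.card F ^ Fintype.card κ := by ring
        _ ≤ _ := Nat.mul_le_mul hq le_rfl
    exact Nat.le_of_mul_le_mul_left h4 Fintype.card_pos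
  have h5 := nn_not (fun v : κ → F => ∃ j, B j v)
  rw [Fintype.card_fun] at h5
  have h6 : nn (fun v : κ → F => ¬ ∃ j, B j v) = nn fun v => ∀ j, ¬ B j v := by
    congr 1
    funext v
    exact propext not_exists
  rw [h6] at h5
  omega

/-- The values of a function at two vectors which differ in one coordinate. -/
theorem count_W {M : Type} [CommMonoid M] (D : (κ → F) → M) (i₀ i₁ : κ) {S : (κ → F) → Prop}
    {G : (κ → F) → F → Prop} (h1 : ∀ v, S v → Fintype.card F ≤ 2 * nn (G v))
    (h3 : ∀ v z, S v → G v z → Fintype.card F ≤ 4 * nn (fun α : F =>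
      ¬ IsSquare (D (Function.update v i₁ α) *
        D (Function.update (Function.update v i₁ α) i₀ z)))) :
    nn S ≤ 16 * nn fun v => ¬ IsSquare (D v) := by
  let W : (κ → F) → F → Prop := fun v z => ¬ IsSquare (D v * D (Function.update v i₀ z))
  have a1 : ∑ v : κ → F, nn (W v) ≤ 2 * (Fintype.card F * nn fun v => ¬ IsSquare (D v)) := by
    have b1 : ∀ v : κ → F, nn (W v) ≤ nn (fun z : F => ¬ IsSquare (D v)) +
        nn (fun z : F => ¬ IsSquare (D (Function.update v i₀ z))) := by
      intro v
      refine le_trans (nn_mono fun z hz => ?_) (nn_or _ _)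
      by_contra hcon
      push Not at hcon
      exact hz (hcon.1.mul hcon.2)
    have b3 : ∑ v : κ → F, nn (fun z : F => ¬ IsSquare (D v)) =
        Fintype.card F * nn fun v => ¬ IsSquare (D v) := by
      unfold nn
      rw [Finset.mul_sum]
      refine Finset.sum_congr rfl fun v _ => ?_
      rw [Finset.sum_const, Finset.card_univ, smul_eq_mul]
    calc ∑ v : κ → F, nn (W v) ≤ ∑ v : κ → F, (nn (fun z : F => ¬ IsSquare (D v)) +
        nn (fun z : F => ¬ IsSquare (D (Function.update v i₀ z)))) :=
          Finset.sum_le_sum fun v _ => b1 v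
      _ = 2 * (Fintype.card F * nn fun v => ¬ IsSquare (D v)) := by
          rw [Finset.sum_add_distrib, b3, nn_update i₀ fun v => ¬ IsSquare (D v)]
          ring
  have a3 : Fintype.card F * ∑ v : κ → F, nn (W v) =
      ∑ v : κ → F, ∑ z : F, nn (fun α : F => W (Function.update v i₁ α) z) := by
    rw [← sum_update i₁]
    refine Finset.sum_congr rfl fun v _ => ?_
    unfold nn
    rw [Finset.sum_comm]
  have a4 : Fintype.card F * (Fintype.card F * nn S) ≤
      8 * (Fintype.card F * ∑ v : κ → F, nn (W v)) := by
    rw [a3]
    have b1 : ∀ v : κ → F, (if S v then Fintype.card F * Fintype.card F else 0) ≤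
        8 * ∑ z : F, nn (fun α : F => W (Function.update v i₁ α) z) := by
      intro v
      split_ifs with hv
      · calc Fintype.card F * Fintype.card F ≤ Fintype.card F * (2 * nn (G v)) :=
              Nat.mul_le_mul le_rfl (h1 v hv)
          _ = 2 * ∑ z : F, if G v z then Fintype.card F else 0 := by
              unfold nn
              rw [Finset.mul_sum, Finset.mul_sum, Finset.mul_sum]
              refine Finset.sum_congr rfl fun z _ => ?_
              split_ifs <;> ring
          _ ≤ 2 * ∑ z : F, 4 * nn (fun α : F => W (Function.update v i₁ α) z) := by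
              refine Nat.mul_le_mul le_rfl (Finset.sum_le_sum fun z _ => ?_)
              split_ifs with hz
              · exact h3 v z hv hz
              · exact Nat.zero_le _
          _ = _ := by
              rw [← Finset.mul_sum]
              ring
      · exact Nat.zero_le _
    calc Fintype.card F * (Fintype.card F * nn S) =
        ∑ v : κ → F, (if S v then Fintype.card F * Fintype.card F else 0) := by
          unfold nn
          rw [Finset.mul_sum, Finset.mul_sum]
          refine Finset.sum_congr rfl fun v _ => ?_
          split_ifs <;> ring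
      _ ≤ ∑ v : κ → F, 8 * ∑ z : F, nn (fun α : F => W (Function.update v i₁ α) z) :=
          Finset.sum_le_sum fun v _ => b1 v
      _ = _ := by rw [← Finset.mul_sum]
  have a5 : Fintype.card F * (Fintype.card F * nn S) ≤
      Fintype.card F * (Fintype.card F * (16 * nn fun v => ¬ IsSquare (D v))) := by
    refine a4.trans ?_
    calc 8 * (Fintype.card F * ∑ v : κ → F, nn (W v)) ≤
        8 * (Fintype.card F * (2 * (Fintype.card F * nn fun v => ¬ IsSquare (D v)))) :=
          Nat.mul_le_mul le_rfl (Nat.mul_le_mul le_rfl a1)
      _ = _ := by ring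
  exact Nat.le_of_mul_le_mul_left (Nat.le_of_mul_le_mul_left a5 Fintype.card_pos)
    Fintype.card_pos

end upd

end Pool.Agent.Q45.TD
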