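import Pool.Agent.Q45.TD.Nn

/-!
# Counting elements which are not squares
-/

set_option autoImplicit false
set_option linter.all false

open Polynomial
open scoped Classical

namespace Pool.Agent.Q45.TD

section field

variable {F : Type} [Field F] [Fintype F]

theorem nsq_card (h2 : (2 : F) ≠ 0) : Fintype.card F = 2 * nn (fun z : F => ¬ IsSquare z) + 1 := by
  have hc : ringChar F ≠ 2 := by
    intro h
    apply h2
    have h3 := ringChar.spec F 2
    rw [h] at h3
    exact_mod_cast h3.2 dvd_rfl
  have h1 := quadraticChar_sum_zero hc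
  have h3 : ∀ a : F, (1 : ℤ) = (if a = 0 then 1 else 0) + quadraticChar F a +
      2 * (if ¬ IsSquare a then 1 else 0) := by
    intro a
    by_cases ha : a = 0
    · subst ha
      simp
    · by_cases hs : IsSquare a
      · rw [(quadraticChar_one_iff_isSquare ha).2 hs]
        simp [ha, hs]
      · rw [quadraticChar_neg_one_iff_not_isSquare.2 hs]
        simp [ha, hs]
  have h4 : ((Fintype.card F : ℕ) : ℤ) = 2 * (nn (fun z : F => ¬ IsSquare z) : ℕ) + 1 := by
    calc ((Fintype.card F : ℕ) : ℤ) = ∑ a : F, (1 : ℤ) := by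
          rw [Finset.sum_const, Finset.card_univ, nsmul_eq_mul, mul_one]
      _ = ∑ a : F, ((if a = 0 then 1 else 0) + quadraticChar F a +
            2 * (if ¬ IsSquare a then 1 else 0)) := Finset.sum_congr rfl fun a _ => h3 a
      _ = 2 * (nn (fun z : F => ¬ IsSquare z) : ℕ) + 1 := by
          rw [Finset.sum_add_distrib, Finset.sum_add_distrib, h1, ← Finset.mul_sum,
            Finset.sum_ite_eq' Finset.univ (0 : F), if_pos (Finset.mem_univ _)]
          unfold nn
          push_cast
          ring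
  exact_mod_cast h4

theorem nn_one (c : F) : nn (fun z : F => z = c) ≤ 1 := by
  rw [nn_eq]
  exact Finset.card_le_one.2 fun a ha b hb => by
    rw [(Finset.mem_filter.1 ha).2, (Finset.mem_filter.1 hb).2]

theorem nn_roots {p : F[X]} (hp : p ≠ 0) : nn (fun z : F => eval z p = 0) ≤ p.natDegree := by
  rw [nn_eq]
  have h1 : (Finset.univ.filter fun z : F => eval z p = 0) ⊆ p.roots.toFinset := by
    intro z hz
    rw [Multiset.mem_toFinset, mem_roots hp]
    exact (Finset.mem_filter.1 hz).2
  exact (Finset.card_le_card h1).trans ((Multiset.toFinset_card_le _).trans (card_roots' p))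

theorem nn_val {p : F[X]} {n : ℕ} (hp : 0 < p.natDegree) (hn : p.natDegree ≤ n) (c : F) :
    nn (fun z : F => eval z p = c) ≤ n := by
  have h1 : p - C c ≠ 0 := by
    intro h0
    have h3 := congrArg natDegree h0
    rw [natDegree_sub_C, natDegree_zero] at h3
    omega
  have h3 := nn_roots h1
  rw [natDegree_sub_C] at h3
  refine le_trans (nn_mono fun z hz => ?_) (h3.trans hn)
  rw [eval_sub, eval_C, hz, sub_self]

theorem isSq_mul_sq {a b : F} (hb : b ≠ 0) : IsSquare (a * b ^ 2) ↔ IsSquare a := by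
  constructor
  · rintro ⟨c, hc⟩
    refine ⟨c / b, ?_⟩
    field_simp
    rw [pow_two, pow_two, ← hc, pow_two]
  · rintro ⟨c, hc⟩
    exact ⟨c * b, by rw [hc]; ring⟩

/-- The values of a linear form. -/
theorem nsq_lin (h2 : (2 : F) ≠ 0) (h : F) {c : F} (hc : c ≠ 0) :
    Fintype.card F ≤ 2 * nn (fun z : F => ¬ IsSquare ((z - h) * c)) + 1 := by
  rw [nsq_card h2]
  have h1 : nn (fun z : F => ¬ IsSquare z) ≤ nn (fun z : F => ¬ IsSquare ((z - h) * c)) := by
    refine nn_inj (fun z => z * c⁻¹ + h) (fun x y _ _ hxy => ?_) (fun z hz => ?_)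
    · have h3 : x * c⁻¹ = y * c⁻¹ := add_right_cancel hxy
      exact mul_right_cancel₀ (inv_ne_zero hc) h3
    · have h3 : (z * c⁻¹ + h - h) * c = z := by
        rw [add_sub_cancel_right, mul_assoc, inv_mul_cancel₀ hc, mul_one]
      rw [h3]
      exact hz
  omega

/-- The values of the product of two linear forms. -/
theorem nsq_two (h2 : (2 : F) ≠ 0) {b b' : F} (hb : b ≠ b') {c : F} (hc : c ≠ 0) :
    Fintype.card F ≤ 2 * nn (fun z : F => ¬ IsSquare (c * ((z + b) * (z + b')))) + 3 := by
  have a1 := nsq_lin h2 0 hc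
  have a3 : nn (fun z : F => ¬ IsSquare ((z - 0) * c)) ≤
      nn (fun z : F => ¬ IsSquare (z * c) ∧ z ≠ 1) + nn (fun z : F => z = 1) := by
    refine le_trans (nn_mono fun z hz => ?_) (nn_or _ _)
    rw [sub_zero] at hz
    by_cases h1 : z = 1
    · exact Or.inr h1
    · exact Or.inl ⟨hz, h1⟩
  have a4 := nn_one (1 : F)
  have a5 : nn (fun z : F => ¬ IsSquare (z * c) ∧ z ≠ 1) ≤
      nn (fun z : F => ¬ IsSquare (c * ((z + b) * (z + b')))) := by
    have hd : b' - b ≠ 0 := sub_ne_zero.2 (Ne.symm hb)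
    refine nn_inj (fun z => (b' - b) / (z - 1) - b) (fun x y hx hy hxy => ?_) (fun z hz => ?_)
    · have hx1 : x - 1 ≠ 0 := sub_ne_zero.2 hx.2
      have hy1 : y - 1 ≠ 0 := sub_ne_zero.2 hy.2
      have h3 : (b' - b) / (x - 1) = (b' - b) / (y - 1) := sub_left_injective hxy
      rw [div_eq_div_iff hx1 hy1] at h3
      have h4 := mul_left_cancel₀ hd h3
      linear_combination -h4
    · have hz1 : z - 1 ≠ 0 := sub_ne_zero.2 hz.2
      have h3 : c * (((b' - b) / (z - 1) - b + b) * ((b' - b) / (z - 1) - b + b')) =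
          z * c * ((b' - b) / (z - 1)) ^ 2 := by
        field_simp
        ring
      show ¬ IsSquare (c * (((b' - b) / (z - 1) - b + b) * ((b' - b) / (z - 1) - b + b')))
      rw [h3, isSq_mul_sq (div_ne_zero hd hz1)]
      exact hz.1
  omega

end field

end Pool.Agent.Q45.TD
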