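import Pool.Agent.Q45.Tate.Dens
import Pool.Agent.Q45.TD.Irc

/-!
# From finite fields to number fields
-/

set_option autoImplicit false
set_option linter.all false

open Polynomial IntermediateField
open scoped Classical

namespace Pool.Agent.Q45.TD

section sqdown

variable {E : Type} [Field E] {M : Type} [Field M]

/-- The constants which are squares modulo a polynomial which has a root and no other small factor
over an extension. -/
theorem sq_down (σ : E →+* M) {q : E[X]} (hq : Irreducible q) {a : M} {V : M[X]}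
    (hV : Irreducible V) (hqV : q.map σ = (X - C a) * V) (hdeg : 4 ≤ q.natDegree) {d : E} {z : E[X]}
    (h : q ∣ C d - z ^ 2) : ∃ e, d = e ^ 2 := by
  by_contra hcon
  push Not at hcon
  haveI : Fact (Irreducible q) := ⟨hq⟩
  haveI : FiniteDimensional E (AdjoinRoot q) := (AdjoinRoot.powerBasis hq.ne_zero).finite
  have hrk : Module.finrank E (AdjoinRoot q) = q.natDegree := by
    rw [(AdjoinRoot.powerBasis hq.ne_zero).finrank, AdjoinRoot.powerBasis_dim]
  set zb : AdjoinRoot q := AdjoinRoot.mk q z with hzb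
  have hz : zb ^ 2 = algebraMap E (AdjoinRoot q) d := by
    rw [hzb, ← map_pow, AdjoinRoot.algebraMap_eq]
    show AdjoinRoot.mk q (z ^ 2) = AdjoinRoot.mk q (C d)
    exact (AdjoinRoot.mk_eq_mk.2 h).symm
  have hirr2 : Irreducible (X ^ 2 - C d : E[X]) :=
    X_pow_sub_C_irreducible_of_prime Nat.prime_two fun b hb => hcon b hb.symm
  have hmin : minpoly E zb = X ^ 2 - C d :=
    (minpoly.eq_of_irreducible_of_monic hirr2 (by rw [map_sub, map_pow, aeval_X, aeval_C, hz, sub_self])
      (monic_X_pow_sub_C d two_ne_zero)).symm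
  have hint : IsIntegral E zb := IsIntegral.of_finite E zb
  have hr2 : Module.finrank E E⟮zb⟯ = 2 := by
    rw [adjoin.finrank hint, hmin, natDegree_X_pow_sub_C]
  set w : AdjoinRoot q := AdjoinRoot.root q with hw
  have htop : (E⟮zb⟯)⟮w⟯ = ⊤ := by
    rw [eq_top_iff]
    intro x _
    obtain ⟨p, rfl⟩ := AdjoinRoot.mk_surjective x
    rw [← AdjoinRoot.aeval_eq, ← aeval_map_algebraMap (A := E⟮zb⟯)]
    exact algebra_adjoin_le_adjoin _ _ (aeval_mem_adjoin_singleton _ _)
  set u := minpoly E⟮zb⟯ w with hu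
  have hud : u.natDegree = Module.finrank E⟮zb⟯ (AdjoinRoot q) :=
    (Field.primitive_element_iff_minpoly_natDegree_eq _ w).1 htop
  have htower := Module.finrank_mul_finrank E E⟮zb⟯ (AdjoinRoot q)
  rw [hr2, hrk, ← hud] at htower
  -- the embedding
  have hroot : eval₂ σ a q = 0 := by
    rw [← eval_map, hqV, eval_mul, eval_sub, eval_X, eval_C, sub_self, zero_mul]
  let τ : AdjoinRoot q →+* M := AdjoinRoot.lift σ a hroot
  let ρ : E⟮zb⟯ →+* M := τ.comp (algebraMap E⟮zb⟯ (AdjoinRoot q))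
  have hτw : τ w = a := AdjoinRoot.lift_root hroot
  have hua : eval a (u.map ρ) = 0 := by
    rw [eval_map, ← hτw, ← hom_eval₂]
    have h1 : eval₂ (algebraMap E⟮zb⟯ (AdjoinRoot q)) w u = 0 := minpoly.aeval E⟮zb⟯ w
    rw [h1, map_zero]
  have hdv : u ∣ q.map (algebraMap E E⟮zb⟯) := by
    refine minpoly.dvd _ _ ?_
    rw [aeval_map_algebraMap, AdjoinRoot.aeval_eq, AdjoinRoot.mk_self]
  have hdv2 : u.map ρ ∣ q.map σ := by
    have h1 := Polynomial.map_dvd ρ hdv
    rw [Polynomial.map_map] at h1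
    have h3 : ρ.comp (algebraMap E E⟮zb⟯) = σ := by
      refine RingHom.ext fun x => ?_
      show τ (algebraMap E⟮zb⟯ (AdjoinRoot q) (algebraMap E E⟮zb⟯ x)) = σ x
      rw [← IsScalarTower.algebraMap_apply E E⟮zb⟯ (AdjoinRoot q), AdjoinRoot.algebraMap_eq]
      exact AdjoinRoot.lift_of hroot
    rwa [h3] at h1
  obtain ⟨u', hu'⟩ := dvd_iff_isRoot.2 hua
  rw [hqV, hu'] at hdv2
  have hdv3 := (mul_dvd_mul_iff_left (X_sub_C_ne_zero a)).1 hdv2
  obtain ⟨t, ht⟩ := hdv3
  have hum : (u.map ρ).natDegree = u.natDegree := natDegree_map _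
  have hu0 : u' ≠ 0 := by
    rintro rfl
    rw [mul_zero] at hu'
    have h1 : u ≠ 0 := minpoly.ne_zero (IsIntegral.of_finite _ w)
    exact h1 ((Polynomial.map_eq_zero ρ).1 hu')
  have ht0 : t ≠ 0 := by
    rintro rfl
    rw [mul_zero] at ht
    exact hV.ne_zero ht
  have e1 : u.natDegree = 1 + u'.natDegree := by
    rw [← hum, hu', natDegree_mul (X_sub_C_ne_zero a) hu0, natDegree_X_sub_C]
  have e3 : q.natDegree = 1 + V.natDegree := by
    rw [← natDegree_map σ, hqV, natDegree_mul (X_sub_C_ne_zero a) hV.ne_zero, natDegree_X_sub_C]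
  have e4 : V.natDegree = u'.natDegree + t.natDegree := by
    rw [ht, natDegree_mul hu0 ht0]
  rcases hV.isUnit_or_isUnit ht with h1 | h1
  · have h3 := natDegree_eq_zero_of_isUnit h1
    omega
  · have h3 := natDegree_eq_zero_of_isUnit h1
    omega

end sqdown

section padic

open Q45.Tate

variable {P : ℕ} [hP : Fact P.Prime]

/-- Integers which are not squares modulo a prime. -/
theorem nonsq_up {E : Type} [Field E] (σ : E →+* ℚ_[P]) {D : ℤ} (hD : ¬ IsSquare (D : ZMod P))
    (e : E) : (D : E) ≠ e ^ 2 := by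
  intro h
  have h1 : ‖σ e‖ ≤ 1 := by
    have h3 := congrArg (fun x => ‖σ x‖) h
    simp only [map_intCast, map_pow, norm_pow] at h3
    have h4 : ‖((D : ℤ) : ℚ_[P])‖ ≤ 1 := Padic.norm_int_le_one D
    by_contra hcon
    push Not at hcon
    have h5 : 1 < ‖σ e‖ ^ 2 := one_lt_pow₀ hcon two_ne_zero
    linarith
  apply hD
  have h3 : ((D : ℤ) : vs σ) = (⟨e, h1⟩ : vs σ) ^ 2 := by
    apply Subtype.ext
    push_cast
    exact h
  have h4 := congrArg (res σ) h3
  rw [map_intCast, map_pow] at h4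
  exact ⟨_, h4.trans (pow_two _)⟩

/-- Hensel's lemma. -/
theorem hens {h : ℤ[X]} (hm : h.Monic) (hh : LinIrr (h.map (Int.castRingHom (ZMod P))))
    (hd : 2 < h.natDegree) : ∃ (a : ℚ_[P]) (V : ℚ_[P][X]), Irreducible V ∧
      h.map (Int.castRingHom ℚ_[P]) = (X - C a) * V := by
  obtain ⟨α, V, hV, hVm, hhV⟩ := hh
  have hVd : 1 < V.natDegree := by
    have h1 := congrArg natDegree hhV
    rw [hm.natDegree_map, (monic_X_sub_C α).natDegree_mul hVm, natDegree_X_sub_C] at h1
    omega
  have hVα : eval α V ≠ 0 := by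
    intro h0
    have h8 := degree_eq_one_of_irreducible_of_root hV h0
    rw [degree_eq_natDegree hVm.ne_zero] at h8
    have h9 : V.natDegree = 1 := by exact_mod_cast h8
    omega
  obtain ⟨a₀, ha₀⟩ := ZMod.ringHom_surjective (PadicInt.toZMod (p := P)) α
  set H : ℤ_[P][X] := h.map (Int.castRingHom ℤ_[P]) with hH
  have hHm : H.Monic := hm.map _
  have hHr : H.map (PadicInt.toZMod (p := P)) = (X - C α) * V := by
    rw [hH, Polynomial.map_map, ← hhV]
    congr 1
    exact RingHom.ext_int _ _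
  have hnorm0 : ∀ x : ℤ_[P], PadicInt.toZMod x = 0 → ‖x‖ < 1 := by
    intro x hx
    have h3 : x ∈ RingHom.ker (PadicInt.toZMod (p := P)) := hx
    rw [PadicInt.ker_toZMod] at h3
    exact PadicInt.mem_nonunits.1 ((IsLocalRing.mem_maximalIdeal _).1 h3)
  have hnorm1 : ∀ x : ℤ_[P], PadicInt.toZMod x ≠ 0 → ‖x‖ = 1 := by
    intro x hx
    by_contra hcon
    apply hx
    have h3 : x ∈ RingHom.ker (PadicInt.toZMod (p := P)) := by
      rw [PadicInt.ker_toZMod]
      exact (IsLocalRing.mem_maximalIdeal _).2 fun h => hcon (PadicInt.isUnit_iff.1 h)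
    exact h3
  have hnorm1' : ∀ x : ℤ_[P], ‖x‖ < 1 → PadicInt.toZMod x = 0 := by
    intro x hx
    by_contra hcon
    rw [hnorm1 x hcon] at hx
    exact lt_irrefl _ hx
  have e1 : ‖H.aeval a₀‖ < 1 := by
    apply hnorm0
    rw [coe_aeval_eq_eval, ← eval₂_at_apply, ← eval_map, hHr, ha₀, eval_mul, eval_sub, eval_X, eval_C,
      sub_self, zero_mul]
  have e3 : ‖H.derivative.aeval a₀‖ = 1 := by
    apply hnorm1
    rw [coe_aeval_eq_eval, ← eval₂_at_apply, ← eval_map, ← derivative_map, hHr, ha₀, derivative_mul,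
      derivative_sub, derivative_X, derivative_C, sub_zero, one_mul, eval_add, eval_mul, eval_sub,
      eval_X, eval_C, sub_self, zero_mul, add_zero]
    exact hVα
  obtain ⟨a, ha, ha1, -⟩ := hensels_lemma (F := H) (a := a₀) (by rw [e3, one_pow]; exact e1)
  rw [e3] at ha1
  rw [coe_aeval_eq_eval] at ha
  have haα : PadicInt.toZMod a = α := by
    have h1 := hnorm1' _ ha1
    rw [map_sub, ha₀, sub_eq_zero] at h1
    exact h1
  obtain ⟨V', hV'⟩ := dvd_iff_isRoot.2 ha
  have hVm' : V'.Monic := by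
    rw [hV'] at hHm
    exact (monic_X_sub_C a).of_mul_monic_left hHm
  have hVr : V'.map (PadicInt.toZMod (p := P)) = V := by
    have h1 := hHr
    rw [hV', Polynomial.map_mul, Polynomial.map_sub, map_X, map_C, haα] at h1
    exact mul_left_cancel₀ (X_sub_C_ne_zero α) h1
  have hVi : Irreducible V' := by
    refine hVm'.irreducible_of_irreducible_map (PadicInt.toZMod (p := P)) _ ?_
    rw [hVr]
    exact hV
  have hVi2 := (hVm'.irreducible_iff_irreducible_map_fraction_map (K := ℚ_[P])).1 hVi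
  refine ⟨algebraMap ℤ_[P] ℚ_[P] a, V'.map (algebraMap ℤ_[P] ℚ_[P]), hVi2, ?_⟩
  have h1 := congrArg (Polynomial.map (algebraMap ℤ_[P] ℚ_[P])) hV'
  rw [Polynomial.map_mul, Polynomial.map_sub, map_X, map_C, hH, Polynomial.map_map] at h1
  rw [← h1]
  congr 1

end padic

end Pool.Agent.Q45.TD
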