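import Pool.Agent.Q45.TD.Def
import Pool.Agent.Q45.TW.Uni

/-!
# Counting: products of values of the polynomial
-/

set_option autoImplicit false
set_option linter.all false

open Polynomial
open scoped Classical

namespace Pool.Agent.Q45.TD

open Pool.Agent.Y160.T3 (mF bF mF_eq mF_inj mF_monic mF_natDegree mF_of)
open Pool.Agent.Q45.TW (Ph Ph_spec Ph_monic Ph_deg Ph_eval)

section upd

variable {A : Type} [CommRing A] {n r m : ℕ} (v : Ix n r m → A)

theorem gK_upd_coeff (j : Fin n) (α : A) : gK (Function.update v (Sum.inl j) α) =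
    gK v + C (α - v (Sum.inl j)) * X ^ (j : ℕ) := by
  unfold gK
  rw [mF_eq, mF_eq, add_assoc]
  congr 1
  unfold bF
  have h1 : ∀ i : Fin n, C (Function.update v (Sum.inl j) α (Sum.inl i)) * X ^ (i : ℕ) =
      C (v (Sum.inl i)) * X ^ (i : ℕ) + if i = j then C (α - v (Sum.inl j)) * X ^ (j : ℕ) else 0 := by
    intro i
    by_cases h : i = j
    · subst h
      rw [Function.update_self, if_pos rfl, ← add_mul, ← C_add, add_sub_cancel]
    · rw [Function.update_of_ne (fun h1 => h (Sum.inl_injective h1)), if_neg h, add_zero]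
  rw [Finset.sum_congr rfl fun i _ => h1 i, Finset.sum_add_distrib,
    Finset.sum_ite_eq' Finset.univ j, if_pos (Finset.mem_univ j)]

theorem v_upd_coeff (j : Fin n) (α : A) (i : Fin r ⊕ Fin m) :
    Function.update v (Sum.inl j) α (Sum.inr i) = v (Sum.inr i) :=
  Function.update_of_ne (by simp) _ _

end upd

section fin

variable {F : Type} [Field F] [Fintype F] {n r m : ℕ}

/-- The case of the products of values. -/
theorem cnt_W (h2 : (2 : F) ≠ 0) (hn : 1 < n) {s i₀ : Fin r} {U I : Finset (Fin r ⊕ Fin m)}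
    (hU : Sum.inl s ∉ U) (hI : Sum.inl s ∉ I) (hIp : ∀ i ∈ I, ∃ j, i = Sum.inl j)
    (hi : Sum.inl i₀ ∈ I) (hq : 2 * ((r + m + (r + m)) * n) ≤ Fintype.card F)
    (hq2 : 2 * n + 2 ≤ Fintype.card F) (hq3 : 6 + 4 * (r + m) ≤ Fintype.card F) :
    Fintype.card F ^ Fintype.card (Ix n r m) ≤ 32 * nn (fun v : Ix n r m → F =>
      ¬ IsSquare (DD v (Sum.inl s) U I)) := by
  have h1 := half_ne (n := n) (m := m) (by omega) (Sum.inl s) hq
  have hsi : (Sum.inl s : Fin r ⊕ Fin m) ≠ Sum.inl i₀ := fun h => hI (h ▸ hi)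
  have h3 := count_W (F := F) (κ := Ix n r m) (fun v => DD v (Sum.inl s) U I)
    (Sum.inr (Sum.inl i₀)) (Sum.inl ⟨1, hn⟩)
    (S := fun v : Ix n r m → F =>
      ∀ i, i ≠ Sum.inl s → v (Sum.inr i) ≠ v (Sum.inr (Sum.inl s)) ∧ cc v i ≠ cc v (Sum.inl s))
    (G := fun v z => z ≠ v (Sum.inr (Sum.inl s)) ∧
      eval z (Ph (gK v) (v (Sum.inr (Sum.inl s)))) ≠
        eval (v (Sum.inr (Sum.inl i₀))) (Ph (gK v) (v (Sum.inr (Sum.inl s))))) ?_ ?_
  · refine h1.trans ((Nat.mul_le_mul le_rfl h3).trans ?_)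
    rw [← mul_assoc]
    exact Nat.mul_le_mul (by norm_num) le_rfl
  · intro v hv
    set u := v (Sum.inr (Sum.inl s))
    set x := v (Sum.inr (Sum.inl i₀))
    have a0 : (gK v).natDegree = n := gK_deg v
    have a1 := Ph_deg (gK_monic v) (by omega) u
    have a3 := nn_val (F := F) (p := Ph (gK v) u) (n := n) (by omega) (by omega)
      (eval x (Ph (gK v) u))
    have a4 := nn_one u
    have a5 := nn_not (fun z : F => z ≠ u ∧ eval z (Ph (gK v) u) ≠ eval x (Ph (gK v) u))
    have a6 : nn (fun z : F => ¬ (z ≠ u ∧ eval z (Ph (gK v) u) ≠ eval x (Ph (gK v) u))) ≤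
        nn (fun z : F => z = u) + nn (fun z : F => eval z (Ph (gK v) u) = eval x (Ph (gK v) u)) := by
      refine le_trans (nn_mono fun z hz => ?_) (nn_or _ _)
      by_contra hcon
      push Not at hcon
      exact hz hcon
    omega
  · intro v z hv hz
    obtain ⟨hzu, hzx⟩ := hz
    set u := v (Sum.inr (Sum.inl s)) with hu
    set x := v (Sum.inr (Sum.inl i₀)) with hx
    set j₁ : Fin n := ⟨1, hn⟩ with hj
    let β : F → F := fun y => eval y (Ph (gK v) u) - v (Sum.inl j₁)
    have hβ : β x ≠ β z := fun h => hzx (sub_left_injective h).symm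
    have hxu : x - u ≠ 0 := sub_ne_zero.2 (hv _ (Ne.symm hsi)).1
    have hzu' : z - u ≠ 0 := sub_ne_zero.2 hzu
    -- the values
    have hev : ∀ α y : F, eval y (gK (Function.update v (Sum.inl j₁) α)) -
        eval u (gK (Function.update v (Sum.inl j₁) α)) = (y - u) * (α + β y) := by
      intro α y
      have b1 := Ph_eval (gK v) u y
      rw [gK_upd_coeff, eval_add, eval_add, eval_mul, eval_mul, eval_C, eval_C, eval_pow, eval_pow,
        eval_X, eval_X]
      show _ + (α - v (Sum.inl j₁)) * y ^ 1 - (_ + (α - v (Sum.inl j₁)) * u ^ 1) =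
        (y - u) * (α + (eval y (Ph (gK v) u) - v (Sum.inl j₁)))
      linear_combination b1
    let R : F → F := fun α => DD (Function.update v (Sum.inl j₁) α) (Sum.inl s)
      (U.erase (Sum.inl i₀)) (I.erase (Sum.inl i₀))
    let ε : F := if Sum.inl i₀ ∈ U then x - u else 1
    let ε' : F := if Sum.inl i₀ ∈ U then z - u else 1
    have hε : ε ≠ 0 := by
      show (if Sum.inl i₀ ∈ U then x - u else 1) ≠ 0
      split_ifs
      · exact hxu
      · exact one_ne_zero
    have hε' : ε' ≠ 0 := by
      show (if Sum.inl i₀ ∈ U then z - u else 1) ≠ 0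
      split_ifs
      · exact hzu'
      · exact one_ne_zero
    have hcs : ∀ α, cc (Function.update v (Sum.inl j₁) α) (Sum.inl s) =
        eval u (gK (Function.update v (Sum.inl j₁) α)) := by
      intro α
      rw [cc_inl, v_upd_coeff]
    have hD1 : ∀ α, DD (Function.update v (Sum.inl j₁) α) (Sum.inl s) U I =
        ε * ((x - u) * (α + β x)) * R α := by
      intro α
      rw [DD_erase _ (Sum.inl s) (Sum.inl i₀), if_pos hi, cc_inl, hcs, v_upd_coeff, v_upd_coeff,
        hev]
    have hD2 : ∀ α, DD (Function.update (Function.update v (Sum.inl j₁) α) (Sum.inr (Sum.inl i₀)) z)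
        (Sum.inl s) U I = ε' * ((z - u) * (α + β z)) * R α := by
      intro α
      rw [DD_erase _ (Sum.inl s) (Sum.inl i₀), if_pos hi, cc_upd, cc_upd_ne _ _ _ _ hsi, hcs,
        v_upd, v_upd_ne _ _ _ _ hsi, v_upd_coeff, DD_upd_ne _ _ _ _ hsi (Finset.notMem_erase _ _)
        (Finset.notMem_erase _ _)]
      have h5 : pK (Function.update v (Sum.inl j₁) α) (Sum.inl i₀ : Fin r ⊕ Fin m) =
          gK (Function.update v (Sum.inl j₁) α) := by
        unfold pK
        rw [Sum.elim_inl]
      rw [h5, hev]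
    have c1 := nsq_two h2 hβ (c := ε * ε' * ((x - u) * (z - u))) (mul_ne_zero (mul_ne_zero hε hε')
      (mul_ne_zero hxu hzu'))
    have c3 : nn (fun α : F => ¬ IsSquare (ε * ε' * ((x - u) * (z - u)) * ((α + β x) * (α + β z)))) ≤
        nn (fun α : F => ¬ IsSquare (DD (Function.update v (Sum.inl j₁) α) (Sum.inl s) U I *
        DD (Function.update (Function.update v (Sum.inl j₁) α) (Sum.inr (Sum.inl i₀)) z)
          (Sum.inl s) U I)) + nn (fun α : F => R α = 0) := by
      refine le_trans (nn_mono fun α hα => ?_) (nn_or _ _)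
      by_cases hR : R α = 0
      · exact Or.inr hR
      · refine Or.inl ?_
        rw [hD1, hD2]
        have h5 : ε * ((x - u) * (α + β x)) * R α * (ε' * ((z - u) * (α + β z)) * R α) =
            ε * ε' * ((x - u) * (z - u)) * ((α + β x) * (α + β z)) * R α ^ 2 := by ring
        rw [h5, isSq_mul_sq hR]
        exact hα
    have c4 : nn (fun α : F => R α = 0) ≤ r + m := by
      refine le_trans (nn_mono (q := fun α => ∃ i : Fin r ⊕ Fin m, α = -β (v (Sum.inr i)))
        fun α hα => ?_) ((nn_ex _).trans ((Finset.sum_le_sum fun i _ => nn_one _).trans ?_))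
      · by_contra hcon
        push Not at hcon
        have d0 : DD (Function.update v (Sum.inl j₁) α) (Sum.inl s) (U.erase (Sum.inl i₀))
            (I.erase (Sum.inl i₀)) = 0 := hα
        unfold DD at d0
        rcases mul_eq_zero.1 d0 with d1 | d1
        · obtain ⟨i, hi', d3⟩ := Finset.prod_eq_zero_iff.1 d1
          rw [v_upd_coeff, v_upd_coeff] at d3
          exact (hv i fun h => hU (h ▸ Finset.mem_of_mem_erase hi')).1 (sub_eq_zero.1 d3)
        · obtain ⟨i, hi', d3⟩ := Finset.prod_eq_zero_iff.1 d1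
          have hiI := Finset.mem_of_mem_erase hi'
          obtain ⟨j, rfl⟩ := hIp i hiI
          rw [cc_inl, hcs, v_upd_coeff, hev] at d3
          rcases mul_eq_zero.1 d3 with d4 | d4
          · exact (hv _ fun h => hI (h ▸ hiI)).1 (sub_eq_zero.1 d4)
          · exact hcon (Sum.inl j) (eq_neg_of_add_eq_zero_left d4)
      · simp
    have c5 := c1
    show Fintype.card F ≤ 4 * nn (fun α : F => ¬ IsSquare (DD (Function.update v (Sum.inl j₁) α)
      (Sum.inl s) U I * DD (Function.update (Function.update v (Sum.inl j₁) α)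
        (Sum.inr (Sum.inl i₀)) z) (Sum.inl s) U I))
    omega

end fin

end Pool.Agent.Q45.TD
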